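import Mathlib
import Pool.Agent.H342R3.FS10

/-!
Characterization of the weighted backward shifts on `ℓ^p`, `1 ≤ p < ∞`, that possess a frequently
hypercyclic subspace.
-/

set_option autoImplicit false

open Filter
open scoped ENNReal Topology

namespace Pool.Agent.Results.MP_0403fc_an.FHCSubspaces

/-- The sequence space `ℓ^p` over `𝕜`, indexed by `ℕ = {0, 1, 2, …}` (Mathlib's `lp`, with its
norm and vector space structure). -/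
def Ell (𝕜 : Type) [RCLike 𝕜] (p : ℝ≥0∞) : Type := lp (fun _ : ℕ => 𝕜) p

noncomputable instance instNorm (𝕜 : Type) [RCLike 𝕜] (p : ℝ≥0∞) [Fact (1 ≤ p)] :
    NormedAddCommGroup (Ell 𝕜 p) :=
  @lp.normedAddCommGroup ℕ (fun _ => 𝕜) p _ _

noncomputable instance instSpace (𝕜 : Type) [RCLike 𝕜] (p : ℝ≥0∞) [Fact (1 ≤ p)] :
    NormedSpace 𝕜 (Ell 𝕜 p) :=
  @lp.instNormedSpace 𝕜 ℕ (fun _ => 𝕜) p _ _ _ _

/-- The `n`-th coordinate of a vector of `ℓ^p`. -/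
def coord {𝕜 : Type} [RCLike 𝕜] {p : ℝ≥0∞} (x : Ell 𝕜 p) (n : ℕ) : 𝕜 :=
  (show lp (fun _ : ℕ => 𝕜) p from x) n

/-- `A` has positive lower density: `|A ∩ [0, N)| ≥ δ N` for some `δ > 0` and all large `N`. -/
def PosLowerDensity (A : Set ℕ) : Prop :=
  ∃ δ : ℝ, 0 < δ ∧ ∃ N₀ : ℕ, ∀ N : ℕ, N₀ ≤ N →
    δ * (N : ℝ) ≤ (Nat.card {n : ℕ // n < N ∧ n ∈ A} : ℝ)

/-- `x` is a frequently hypercyclic vector for the operator `T` on `ℓ^p`. -/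
def IsFHCVector {𝕜 : Type} [RCLike 𝕜] {p : ℝ≥0∞} [Fact (1 ≤ p)]
    (T : Ell 𝕜 p →L[𝕜] Ell 𝕜 p) (x : Ell 𝕜 p) : Prop :=
  ∀ V : Set (Ell 𝕜 p), IsOpen V → V.Nonempty → PosLowerDensity {n | (⇑T)^[n] x ∈ V}

/-- `M` is a closed infinite-dimensional subspace. -/
def IsClosedInfDim {𝕜 : Type} [RCLike 𝕜] {p : ℝ≥0∞} [Fact (1 ≤ p)]
    (M : Submodule 𝕜 (Ell 𝕜 p)) : Prop :=
  IsClosed (M : Set (Ell 𝕜 p)) ∧ ¬ FiniteDimensional 𝕜 M

/-- `T` has a frequently hypercyclic subspace: a closed infinite-dimensional subspace all of whose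
nonzero vectors are frequently hypercyclic for `T`. -/
def HasFHCSubspace {𝕜 : Type} [RCLike 𝕜] {p : ℝ≥0∞} [Fact (1 ≤ p)]
    (T : Ell 𝕜 p →L[𝕜] Ell 𝕜 p) : Prop :=
  ∃ M : Submodule 𝕜 (Ell 𝕜 p), IsClosedInfDim M ∧ ∀ x ∈ M, x ≠ 0 → IsFHCVector T x

/-- There are a set `A` of positive lower density and a closed infinite-dimensional subspace `M₀`
such that `T^n x → 0` as `n → ∞` in `A`, for each `x ∈ M₀`. -/
def HasNullSubspace {𝕜 : Type} [RCLike 𝕜] {p : ℝ≥0∞} [Fact (1 ≤ p)]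
    (T : Ell 𝕜 p →L[𝕜] Ell 𝕜 p) : Prop :=
  ∃ A : Set ℕ, PosLowerDensity A ∧ ∃ M₀ : Submodule 𝕜 (Ell 𝕜 p), IsClosedInfDim M₀ ∧
    ∀ x ∈ M₀, Tendsto (fun n => (⇑T)^[n] x) (atTop ⊓ 𝓟 A) (𝓝 0)

/-- The product `w 1 * w 2 * ... * w n` of the weights. -/
def β {𝕜 : Type} [RCLike 𝕜] (w : ℕ → 𝕜) (n : ℕ) : 𝕜 := ∏ i ∈ Finset.range n, w (i + 1)

/-- The averaged growth condition: there are a set `A` of positive lower density and a constant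
`C` such that for every `m` there is a finitely supported probability `λ` on `{m, m+1, …}`
(supported in `[m, R)`) with `∑_{k ≥ n} λ_k (|β_k| / |β_{k-n}|)^P ≤ C` for all `n ∈ A`. -/
def AveragedCondition {𝕜 : Type} [RCLike 𝕜] (w : ℕ → 𝕜) (P : ℝ) : Prop :=
  ∃ A : Set ℕ, PosLowerDensity A ∧ ∃ C : ℝ, ∀ m : ℕ, ∃ R : ℕ, ∃ lam : ℕ → ℝ,
    (∀ k, 0 ≤ lam k) ∧ (∑ k ∈ Finset.Ico m R, lam k = 1) ∧
    ∀ n ∈ A, ∑ k ∈ Finset.Ico (max m n) R, lam k * (‖β w k‖ / ‖β w (k - n)‖) ^ P ≤ C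

/-- Let `𝕜 = ℝ` or `ℂ`, `1 ≤ p < ∞`, and let `T` be a bounded weighted backward shift
`(T x)_n = w_{n+1} x_{n+1}` (`n ≥ 0`) on `ℓ^p` with nonzero weights, `β_n = w_1 ⋯ w_n`.

`T` has a frequently hypercyclic subspace if and only if `∑ |β_n|^{-p} < ∞` and the averaged
growth condition holds.

Moreover, `T` has a frequently hypercyclic subspace if and only if `T` is frequently hypercyclic
and there are a set `A` of positive lower density and a closed infinite-dimensional subspace `M₀`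
such that `T^n x → 0` as `n → ∞` in `A`, for each `x ∈ M₀`. -/
theorem result {𝕜 : Type} [RCLike 𝕜] (p : ℝ≥0∞) [Fact (1 ≤ p)] (hp : p ≠ ⊤)
    (w : ℕ → 𝕜) (hw : ∀ n, w n ≠ 0) (T : Ell 𝕜 p →L[𝕜] Ell 𝕜 p)
    (hT : ∀ (x : Ell 𝕜 p) (n : ℕ), coord (T x) n = w (n + 1) * coord x (n + 1)) :
    (HasFHCSubspace T ↔
      Summable (fun n => (‖β w n‖⁻¹) ^ p.toReal) ∧ AveragedCondition w p.toReal) ∧
    (HasFHCSubspace T ↔ (∃ x, IsFHCVector T x) ∧ HasNullSubspace T) := by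
  have h := H342R3.FS.characterization' (𝕜 := 𝕜) (p := p) (w := w) hw (T := T) hp hT
  have h1 := h.out 0 1
  have h2 := h.out 0 2
  have e1 : HasFHCSubspace T ↔ ∃ M : Submodule 𝕜 (H342R3.FS.X 𝕜 p),
      IsClosed (M : Set (H342R3.FS.X 𝕜 p)) ∧ ¬ FiniteDimensional 𝕜 M ∧
        ∀ x ∈ M, x ≠ 0 → H342R3.FS.FHV (T : H342R3.FS.X 𝕜 p →L[𝕜] H342R3.FS.X 𝕜 p) x :=
    exists_congr fun M => and_assoc
  have e2 : HasNullSubspace T ↔ ∃ A : Set ℕ, H342R3.FS.LD A ∧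
      ∃ M : Submodule 𝕜 (H342R3.FS.X 𝕜 p),
        IsClosed (M : Set (H342R3.FS.X 𝕜 p)) ∧ ¬ FiniteDimensional 𝕜 M ∧
        ∀ x ∈ M, Tendsto (fun n => (⇑(T : H342R3.FS.X 𝕜 p →L[𝕜] H342R3.FS.X 𝕜 p))^[n] x)
          (atTop ⊓ 𝓟 A) (𝓝 0) :=
    exists_congr fun A => and_congr Iff.rfl (exists_congr fun M => and_assoc)
  refine ⟨e1.trans h1, e1.trans (h2.trans (and_congr Iff.rfl e2.symm))⟩

end Pool.Agent.Results.MP_0403fc_an.FHCSubspaces
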